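import Pool.Agent.H74.GKKEx

set_option autoImplicit false

namespace Pool.Agent.Results.MP_25f4f2_al.StrictUnstable

open Pool.Agent.H74.GKK

/-- A strict GKK τ-matrix of order 5 with an eigenvalue of nonpositive real part. -/
theorem result :
    ∃ A : Matrix (Fin 5) (Fin 5) ℂ, IsStrictGKK A ∧ IsTau A ∧ ∃ z ∈ spectrum ℂ A, z.re ≤ 0 := by
  refine ⟨_, ⟨M5_P, M5_strict⟩, M5_tau, ?_⟩
  have h := M5_unstable
  unfold IsStable at h
  push Not at h
  exact h

end Pool.Agent.Results.MP_25f4f2_al.StrictUnstable
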